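import Pool.Agent.U681.MB.Pt

/-! The law at the primes with prescribed quadratic symbols. -/

set_option autoImplicit false

namespace Pool.Agent.U681.MB

open NumberField IsDedekindDomain Filter Topology
open Pool.Agent.W529.ST (ch ch_abs ch_dichotomy ch_mul mean mean_sum mean_const_mul)

/-- no product of some of the `d i` is a square, or an element of `T` up to a square -/
def IsFree {r : ℕ} (T : Finset ℤ) (d : Fin r → ℤ) : Prop :=
  ∀ S : Finset (Fin r), S.Nonempty → ¬ IsSquare (∏ i ∈ S, d i) ∧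
    ∀ e ∈ T, ¬ IsSquare (e * ∏ i ∈ S, d i)

variable {K : Type} [Field K] [NumberField K]

theorem prod_le {r : ℕ} (d : Fin r → ℤ) (h0 : ∏ i, d i ≠ 0) (S : Finset (Fin r)) :
    |∏ i ∈ S, d i| ≤ |∏ i, d i| ∧ ∏ i ∈ S, d i ≠ 0 := by
  classical
  have h1 := Finset.prod_sdiff (f := d) (Finset.subset_univ S)
  have h2 : ∏ i ∈ Finset.univ \ S, d i ≠ 0 := by
    intro h
    rw [h, zero_mul] at h1
    exact h0 h1.symm
  have h3 : ∏ i ∈ S, d i ≠ 0 := by
    intro h
    rw [h, mul_zero] at h1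
    exact h0 h1.symm
  refine ⟨?_, h3⟩
  rw [← h1, abs_mul]
  have h4 : 1 ≤ |∏ i ∈ Finset.univ \ S, d i| := Int.one_le_abs h2
  nlinarith [abs_nonneg (∏ i ∈ S, d i)]

theorem core_one {c : ℝ} {r : ℕ} {d : Fin r → ℤ} (h0 : ∏ i, d i ≠ 0) {T : Finset ℤ}
    (hT : IsFree T d) {N M₀ : ℕ} (hN : |((∏ i, d i : ℤ) : ℝ)| ≤ (N : ℝ) ^ c)
    {h : HeightOneSpectrum (𝓞 K) → ℝ} (hh : ∀ v, |h v| ≤ 1) {δ ε : ℝ} (hδ : 0 ≤ δ)
    (hgood : ∀ e : ℤ, Squarefree e → |(e : ℝ)| ≤ (N : ℝ) ^ c → e ∉ T →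
      |mean K (fun v => h v * ch (e : 𝓞 K) v) M₀| < δ)
    (hbad : ∀ φ ψ : HeightOneSpectrum (𝓞 K) → ℝ, (∀ v, |φ v - ψ v| ≤ 2) →
      (∀ v, 2 * ((∏ i, d i : ℤ) : 𝓞 K) ∉ v.asIdeal → φ v = ψ v) →
      |mean K φ M₀ - mean K ψ M₀| ≤ ε) (s : Set (Fin r)) :
    |mean K (fun v => h v * ind d s v) M₀ - mean K h M₀ / 2 ^ r| ≤ δ + ε := by
  classical
  -- the kernels
  have hker : ∀ S : Finset (Fin r), ∃ e : ℤ, S.Nonempty →
      ((∀ v : HeightOneSpectrum (𝓞 K), 2 * ((∏ i, d i : ℤ) : 𝓞 K) ∉ v.asIdeal →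
        ch ((∏ i ∈ S, d i : ℤ) : 𝓞 K) v = ch (e : 𝓞 K) v) ∧
      |mean K (fun v => h v * ch (e : 𝓞 K) v) M₀| < δ) := by
    intro S
    by_cases hS : S.Nonempty
    · obtain ⟨hle, hne⟩ := prod_le d h0 S
      obtain ⟨e, m, he, hq, hel⟩ := exists_kernel hne
      refine ⟨e, fun _ => ⟨fun v hv => ch_sq_mul hq ?_, hgood e he ?_ ?_⟩⟩
      · intro h2
        apply hv
        rw [← Finset.prod_sdiff (f := d) (Finset.subset_univ S)]
        push_cast at h2 ⊢
        have : 2 * ((∏ i ∈ Finset.univ \ S, (d i : 𝓞 K)) * ∏ i ∈ S, (d i : 𝓞 K)) =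
            (∏ i ∈ Finset.univ \ S, (d i : 𝓞 K)) * (2 * ∏ i ∈ S, (d i : 𝓞 K)) := by ring
        rw [this]
        exact Ideal.mul_mem_left _ _ h2
      · refine le_trans ?_ hN
        have : |e| ≤ |∏ i, d i| := hel.trans hle
        exact_mod_cast this
      · intro heT
        refine (hT S hS).2 e heT ⟨m * e, ?_⟩
        rw [hq]
        ring
    · exact ⟨0, fun h => absurd h hS⟩
  choose e he using hker
  set ψ : HeightOneSpectrum (𝓞 K) → ℝ := fun v =>
    (1 / 2 ^ r) * (h v + ∑ S ∈ (Finset.univ : Finset (Finset (Fin r))).erase ∅,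
      (∏ i ∈ S, sg s i) * (h v * ch (e S : 𝓞 K) v)) with hψ
  have hsg : ∀ S : Finset (Fin r), |∏ i ∈ S, sg s i| = 1 := by
    intro S
    rw [Finset.abs_prod]
    exact Finset.prod_eq_one fun i _ => sg_abs s i
  have hcard : (((Finset.univ : Finset (Finset (Fin r))).erase ∅).card : ℝ) + 1 = 2 ^ r := by
    have h1 := Finset.card_erase_add_one (Finset.mem_univ (∅ : Finset (Fin r)))
    rw [Finset.card_univ, Fintype.card_finset, Fintype.card_fin] at h1
    exact_mod_cast h1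
  have hr0 : (0 : ℝ) < 2 ^ r := by positivity
  have h1 : |mean K (fun v => h v * ind d s v) M₀ - mean K ψ M₀| ≤ ε := by
    refine hbad _ _ (fun v => ?_) fun v hv => ?_
    · have e1 : |h v * ind d s v| ≤ 1 := by
        rw [abs_mul, abs_of_nonneg (ind_nonneg d s v)]
        exact mul_le_one₀ (hh v) (ind_nonneg d s v) (ind_le d s v)
      have e2 : |ψ v| ≤ 1 := by
        rw [hψ]
        simp only []
        rw [abs_mul, abs_of_pos (by positivity : (0 : ℝ) < 1 / 2 ^ r), one_div,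
          inv_mul_le_iff₀ hr0, mul_one, ← hcard]
        refine (abs_add_le _ _).trans ?_
        have e3 : |∑ S ∈ (Finset.univ : Finset (Finset (Fin r))).erase ∅,
            (∏ i ∈ S, sg s i) * (h v * ch (e S : 𝓞 K) v)| ≤
            (((Finset.univ : Finset (Finset (Fin r))).erase ∅).card : ℝ) := by
          refine (Finset.abs_sum_le_sum_abs _ _).trans ?_
          calc ∑ S ∈ (Finset.univ : Finset (Finset (Fin r))).erase ∅,
                |(∏ i ∈ S, sg s i) * (h v * ch (e S : 𝓞 K) v)| ≤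
                ∑ _S ∈ (Finset.univ : Finset (Finset (Fin r))).erase ∅, (1 : ℝ) := by
                refine Finset.sum_le_sum fun S _ => ?_
                rw [abs_mul, hsg, one_mul, abs_mul]
                exact mul_le_one₀ (hh v) (abs_nonneg _) (ch_abs _ v)
            _ = _ := by rw [Finset.sum_const, nsmul_eq_mul, mul_one]
        linarith [hh v]
      have e4 := abs_sub (h v * ind d s v) (ψ v)
      linarith
    · rw [ind_eq d s hv, hψ]
      simp only []
      rw [← Finset.add_sum_erase _ _ (Finset.mem_univ (∅ : Finset (Fin r))), Finset.prod_empty,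
        Finset.prod_empty]
      have h2 : (2 : 𝓞 K) ∉ v.asIdeal := fun h => hv (Ideal.mul_mem_right _ _ h)
      have h3 : ch ((1 : ℤ) : 𝓞 K) v = 1 := by
        have := ch_prod (K := K) d ∅ v h2
        rwa [Finset.prod_empty, Finset.prod_empty] at this
      rw [h3, one_mul]
      have h4 : ∀ S ∈ (Finset.univ : Finset (Finset (Fin r))).erase ∅,
          (∏ i ∈ S, sg s i) * ch ((∏ i ∈ S, d i : ℤ) : 𝓞 K) v =
          (∏ i ∈ S, sg s i) * ch (e S : 𝓞 K) v := by
        intro S hS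
        rw [((he S (Finset.nonempty_iff_ne_empty.2 (Finset.ne_of_mem_erase hS))).1 v hv)]
      rw [Finset.sum_congr rfl h4]
      have h5 : ∑ S ∈ (Finset.univ : Finset (Finset (Fin r))).erase ∅,
          (∏ i ∈ S, sg s i) * (h v * ch (e S : 𝓞 K) v) =
          h v * ∑ S ∈ (Finset.univ : Finset (Finset (Fin r))).erase ∅,
          (∏ i ∈ S, sg s i) * ch (e S : 𝓞 K) v := by
        rw [Finset.mul_sum]
        exact Finset.sum_congr rfl fun S _ => by ring
      rw [h5]
      ring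
  have h2 : |mean K ψ M₀ - mean K h M₀ / 2 ^ r| ≤ δ := by
    have e1 : mean K ψ M₀ = (1 / 2 ^ r) * (mean K h M₀ +
        ∑ S ∈ (Finset.univ : Finset (Finset (Fin r))).erase ∅,
          (∏ i ∈ S, sg s i) * mean K (fun v => h v * ch (e S : 𝓞 K) v) M₀) := by
      rw [hψ, mean_const_mul]
      congr 1
      have e2 := Pool.Agent.U681.STw.mn_lin (F := K) 1 1 h (fun v =>
        ∑ S ∈ (Finset.univ : Finset (Finset (Fin r))).erase ∅,
          (∏ i ∈ S, sg s i) * (h v * ch (e S : 𝓞 K) v)) M₀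
      simp only [one_mul] at e2
      rw [e2, mean_sum]
      congr 1
      exact Finset.sum_congr rfl fun S _ => mean_const_mul _ _ _
    have e2 : mean K ψ M₀ - mean K h M₀ / 2 ^ r = (1 / 2 ^ r) *
        ∑ S ∈ (Finset.univ : Finset (Finset (Fin r))).erase ∅,
          (∏ i ∈ S, sg s i) * mean K (fun v => h v * ch (e S : 𝓞 K) v) M₀ := by
      rw [e1]
      ring
    rw [e2, abs_mul, abs_of_pos (by positivity : (0 : ℝ) < 1 / 2 ^ r), one_div,
      inv_mul_le_iff₀ hr0]
    refine (Finset.abs_sum_le_sum_abs _ _).trans ?_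
    calc ∑ S ∈ (Finset.univ : Finset (Finset (Fin r))).erase ∅,
          |(∏ i ∈ S, sg s i) * mean K (fun v => h v * ch (e S : 𝓞 K) v) M₀| ≤
          ∑ _S ∈ (Finset.univ : Finset (Finset (Fin r))).erase ∅, δ := by
          refine Finset.sum_le_sum fun S hS => ?_
          rw [abs_mul, hsg, one_mul]
          exact (he S (Finset.nonempty_iff_ne_empty.2 (Finset.ne_of_mem_erase hS))).2.le
      _ = (((Finset.univ : Finset (Finset (Fin r))).erase ∅).card : ℝ) * δ := by
          rw [Finset.sum_const, nsmul_eq_mul]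
      _ ≤ 2 ^ r * δ := mul_le_mul_of_nonneg_right (by linarith) hδ
  have h3 := abs_sub_le (mean K (fun v => h v * ind d s v) M₀) (mean K ψ M₀)
    (mean K h M₀ / 2 ^ r)
  linarith

end Pool.Agent.U681.MB
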