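import Pool.Agent.U681.MB.Fi

/-! Conditional means. -/

set_option autoImplicit false

namespace Pool.Agent.U681.MB

open NumberField IsDedekindDomain Filter Topology
open Pool.Agent.W529.ST (ch mean mean_sum mean_const_mul mean_close mean_def card_pos)
open Pool.Agent.U681.UT (lp IsTest)

variable {K : Type} [Field K] [NumberField K]

theorem meanOn_eq {r : ℕ} (d : Fin r → ℤ) (s : Set (Fin r)) {M : ℕ}
    (hM : 0 < Nat.card {v : HeightOneSpectrum (𝓞 K) // Ideal.absNorm v.asIdeal ≤ M})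
    (φ : HeightOneSpectrum (𝓞 K) → ℝ) :
    proportion (pattern K d s) M = mean K (ind d s) M ∧
    meanOn (pattern K d s) φ M = mean K (fun v => ind d s v * φ v) M / mean K (ind d s) M := by
  classical
  obtain ⟨t, ht, htc, hmean⟩ := mean_def (F := K) (fun _ => 0) M
  have htp : (0 : ℝ) < t.card := by
    rw [← htc]
    exact_mod_cast hM
  have e : ∀ v : HeightOneSpectrum (𝓞 K), (v ∈ pattern K d s ∧ Ideal.absNorm v.asIdeal ≤ M) ↔
      v ∈ t.filter fun v => v ∈ pattern K d s := by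
    intro v
    rw [Finset.mem_filter, ht]
    exact and_comm
  have hc : Nat.card {v : HeightOneSpectrum (𝓞 K) //
      v ∈ pattern K d s ∧ Ideal.absNorm v.asIdeal ≤ M} =
      (t.filter fun v => v ∈ pattern K d s).card := by
    rw [Nat.card_congr (Equiv.subtypeEquivRight e), Nat.card_eq_fintype_card, Fintype.card_coe]
  have hs : ∑ᶠ v : {v : HeightOneSpectrum (𝓞 K) //
      v ∈ pattern K d s ∧ Ideal.absNorm v.asIdeal ≤ M}, φ v.1 =
      ∑ v ∈ t.filter (fun v => v ∈ pattern K d s), φ v := by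
    have h1 : ∑ᶠ v : {v : HeightOneSpectrum (𝓞 K) //
        v ∈ pattern K d s ∧ Ideal.absNorm v.asIdeal ≤ M}, φ v.1 =
        ∑ᶠ v : {v : HeightOneSpectrum (𝓞 K) // v ∈ t.filter fun v => v ∈ pattern K d s}, φ v.1 :=
      finsum_comp_equiv (Equiv.subtypeEquivRight e) (f := fun v => φ v.1)
    rw [h1, finsum_eq_sum_of_fintype]
    exact Finset.sum_coe_sort _ _
  have hi : ∑ v ∈ t, ind d s v = ((t.filter fun v => v ∈ pattern K d s).card : ℝ) := by
    unfold ind
    rw [← Finset.sum_filter, Finset.sum_const, nsmul_eq_mul, mul_one]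
  have hif : ∑ v ∈ t, ind d s v * φ v = ∑ v ∈ t.filter (fun v => v ∈ pattern K d s), φ v := by
    rw [Finset.sum_filter]
    refine Finset.sum_congr rfl fun v _ => ?_
    unfold ind
    split_ifs <;> simp
  refine ⟨?_, ?_⟩
  · unfold proportion
    rw [hmean, hi, hc, htc]
  · unfold meanOn
    rw [hmean, hmean, hs, hc, hi, hif, div_div_div_cancel_right₀ htp.ne']

theorem one_test {g : ℕ} : IsTest (g := g) fun _ => 1 := by
  refine ⟨LipschitzWith.of_dist_le_mul fun a b => ?_, fun a => by simp⟩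
  rw [dist_self]
  positivity

/-- from the joint law to the conditional law -/
theorem cond {r R k : ℕ} (hr : r ≤ R) (hk : 1 ≤ k) (d : Fin r → ℤ) (s : Set (Fin r)) {M : ℕ}
    (hM : 0 < Nat.card {v : HeightOneSpectrum (𝓞 K) // Ideal.absNorm v.asIdeal ≤ M})
    {F : HeightOneSpectrum (𝓞 K) → ℝ} (hF : ∀ v, |F v| ≤ 1)
    (h1 : |mean K (fun v => ind d s v * F v) M - mean K F M / 2 ^ r| ≤
      1 / ((4 * 2 ^ R * k : ℕ) : ℝ))
    (h2 : |mean K (fun v => ind d s v * (fun _ => (1 : ℝ)) v) M -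
      mean K (fun _ => (1 : ℝ)) M / 2 ^ r| ≤ 1 / ((4 * 2 ^ R * k : ℕ) : ℝ)) :
    |proportion (pattern K d s) M - 1 / 2 ^ r| ≤ 1 / (k : ℝ) ∧
    |meanOn (pattern K d s) F M - mean K F M| ≤ 3 / (4 * (k : ℝ)) := by
  have hkR : (0 : ℝ) < k := by exact_mod_cast hk
  have hk1 : (1 : ℝ) ≤ k := by exact_mod_cast hk
  obtain ⟨e1, e2⟩ := meanOn_eq d s hM F
  obtain ⟨t, ht, htc, hmean⟩ := mean_def (F := K) (fun _ => 0) M
  have htp : (0 : ℝ) < t.card := by
    rw [← htc]
    exact_mod_cast hM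
  have hone : mean K (fun _ => (1 : ℝ)) M = 1 := by
    rw [hmean, Finset.sum_const, nsmul_eq_mul, mul_one, div_self htp.ne']
  have hF1 : |mean K F M| ≤ 1 := by
    rw [hmean, abs_div, abs_of_pos htp, div_le_one htp]
    refine (Finset.abs_sum_le_sum_abs _ _).trans ((Finset.sum_le_sum fun v _ => hF v).trans ?_)
    simp
  have hri : (2 : ℝ) ^ r ≤ 2 ^ R := pow_le_pow_right₀ (by norm_num) hr
  have hr0 : (0 : ℝ) < 2 ^ r := by positivity
  have hr1 : (1 : ℝ) ≤ 2 ^ r := one_le_pow₀ (by norm_num)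
  have hδ : 1 / ((4 * 2 ^ R * k : ℕ) : ℝ) ≤ 1 / (4 * 2 ^ r * k) := by
    push_cast
    exact one_div_le_one_div_of_le (by positivity) (by nlinarith)
  have h1' := h1.trans hδ
  have h2' := h2.trans hδ
  simp only [mul_one] at h2'
  rw [hone] at h2'
  have e3 : mean K (ind d s) M = mean K (fun v => ind d s v) M := rfl
  set U := mean K (fun v => ind d s v * F v) M with hU
  set W := mean K (fun v => ind d s v) M with hW
  set A := mean K F M with hA
  rw [e3] at e1 e2
  set δ : ℝ := 1 / (4 * 2 ^ r * k) with hδd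
  have hδ0 : 0 < δ := by positivity
  have hδ1 : δ * (4 * k) = 1 / 2 ^ r := by
    rw [hδd]
    field_simp
  have hW1 : 3 / 4 * (1 / 2 ^ r) ≤ W := by
    have h3 := (abs_le.1 h2').1
    have h4 : δ ≤ 1 / 4 * (1 / 2 ^ r) := by
      rw [← hδ1]
      nlinarith
    linarith
  have hW0 : 0 < W := lt_of_lt_of_le (by positivity) hW1
  refine ⟨?_, ?_⟩
  · rw [e1]
    refine h2'.trans ?_
    rw [hδd]
    exact one_div_le_one_div_of_le hkR (by nlinarith)
  · rw [e2]
    have h3 : U / W - A = (U - A / 2 ^ r - A * (W - 1 / 2 ^ r)) / W := by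
      field_simp
      ring
    rw [h3, abs_div, abs_of_pos hW0, div_le_iff₀ hW0]
    have h4 : |U - A / 2 ^ r - A * (W - 1 / 2 ^ r)| ≤ δ + 1 * δ := by
      refine (abs_sub _ _).trans (add_le_add h1' ?_)
      rw [abs_mul]
      exact mul_le_mul hF1 h2' (abs_nonneg _) zero_le_one
    refine h4.trans ?_
    have h5 : 3 / (4 * (k : ℝ)) * (3 / 4 * (1 / 2 ^ r)) ≤ 3 / (4 * (k : ℝ)) * W :=
      mul_le_mul_of_nonneg_left hW1 (by positivity)
    refine le_trans ?_ h5
    rw [← hδ1]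
    have h6 : 3 / (4 * (k : ℝ)) * (3 / 4 * (δ * (4 * k))) = 9 / 4 * δ := by
      field_simp
      norm_num
    rw [h6]
    linarith

end Pool.Agent.U681.MB
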