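import Pool.Agent.U681.STw.Defs

/-!
# Means over sets of primes
-/

set_option autoImplicit false

namespace Pool.Agent.U681.MB

open NumberField IsDedekindDomain

/-- the mean of the function `φ` over the primes in `P` of norm at most `M` -/
noncomputable def meanOn {K : Type} [Field K] [NumberField K] (P : Set (HeightOneSpectrum (𝓞 K)))
    (φ : HeightOneSpectrum (𝓞 K) → ℝ) (M : ℕ) : ℝ :=
  (∑ᶠ v : {v : HeightOneSpectrum (𝓞 K) // v ∈ P ∧ Ideal.absNorm v.asIdeal ≤ M}, φ v.1) /
    (Nat.card {v : HeightOneSpectrum (𝓞 K) // v ∈ P ∧ Ideal.absNorm v.asIdeal ≤ M} : ℝ)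

/-- the proportion of the primes in `P` among the primes of norm at most `M` -/
noncomputable def proportion {K : Type} [Field K] [NumberField K]
    (P : Set (HeightOneSpectrum (𝓞 K))) (M : ℕ) : ℝ :=
  (Nat.card {v : HeightOneSpectrum (𝓞 K) // v ∈ P ∧ Ideal.absNorm v.asIdeal ≤ M} : ℝ) /
    (Nat.card {v : HeightOneSpectrum (𝓞 K) // Ideal.absNorm v.asIdeal ≤ M} : ℝ)

/-- the primes `v` of `K` such that `d i` is a square modulo `v` exactly for the `i ∈ s` -/
def pattern (K : Type) [Field K] [NumberField K] {r : ℕ} (d : Fin r → ℤ) (s : Set (Fin r)) :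
    Set (HeightOneSpectrum (𝓞 K)) :=
  {v | ∀ i, IsSquare (Ideal.Quotient.mk v.asIdeal (d i : 𝓞 K)) ↔ i ∈ s}

/-- The integers `d 1, ..., d r` are independent modulo squares and modulo `T`: for no nonempty set `S`
of indices the product of the `d i`, `i ∈ S`, is a square or, up to squares, an element of `T`; and the
product of all `d i` is not zero and at most `N ^ c` in absolute value. -/
def IsIndependent (T : Finset ℤ) (N : ℕ) (c : ℝ) {r : ℕ} (d : Fin r → ℤ) : Prop :=
  ∏ i, d i ≠ 0 ∧ |((∏ i, d i : ℤ) : ℝ)| ≤ (N : ℝ) ^ c ∧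
    ∀ S : Finset (Fin r), S.Nonempty → ¬ IsSquare (∏ i ∈ S, d i) ∧
      ∀ e ∈ T, ¬ IsSquare (e * ∏ i ∈ S, d i)

end Pool.Agent.U681.MB
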