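import Pool.Agent.U681.UT.All

/-! One small exceptional set for all scales between `N` and `N'`. -/

set_option autoImplicit false

namespace Pool.Agent.U681.MB

open NumberField IsDedekindDomain Filter Topology
open Pool.Agent.W529.ST (ch ch_abs ch_dichotomy ch_mul mean)
open Pool.Agent.U681.UT (B0 few scales)

theorem finite_box (X : ℝ) : {d : ℤ | |(d : ℝ)| ≤ X}.Finite := by
  have h3 : {d : ℤ | |(d : ℝ)| ≤ X} ⊆ Set.Icc (-⌈X⌉) ⌈X⌉ := by
    intro d hd
    have h4 := abs_le.1 (show |(d : ℝ)| ≤ X from hd)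
    have h5 := Int.le_ceil X
    constructor
    · have : (-⌈X⌉ : ℝ) ≤ d := by linarith [h4.1]
      exact_mod_cast this
    · have : (d : ℝ) ≤ ⌈X⌉ := by linarith [h4.2]
      exact_mod_cast this
  exact (Set.finite_Icc _ _).subset h3

variable (K : Type) [Field K] [NumberField K]

open Classical in
/-- one scale -/
theorem exc_scale {c : ℝ} (hc0 : 0 < c) (ι : Type) [Fintype ι] {δ : ℝ} (hδ : 0 < δ) (hδ1 : δ ≤ 1) :
    ∀ᶠ N : ℕ in atTop, ∀ h : ι → HeightOneSpectrum (𝓞 K) → ℝ, (∀ a v, |h a v| ≤ 1) →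
      ∃ T : Finset ℤ, (T.card : ℝ) ≤
        Fintype.card ι * (B0 (Module.finrank ℚ K) ⌊c⌋₊ c δ * Real.log N ^ ⌊c⌋₊) ∧
        ∀ d : ℤ, Squarefree d → |(d : ℝ)| ≤ (N : ℝ) ^ c → d ∉ T →
          ∀ a, |mean K (fun v => h a v * ch (d : 𝓞 K) v) N| < δ := by
  have hm1 : ((⌊c⌋₊ : ℕ) : ℝ) ≤ c := Nat.floor_le hc0.le
  have hm2 : c < (⌊c⌋₊ : ℕ) + 1 := Nat.lt_floor_add_one c
  filter_upwards [few K hc0 hm1 hm2 hδ hδ1] with N hN h hh
  set Bx : Finset ℤ := (finite_box ((N : ℝ) ^ c)).toFinset with hBx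
  have hmem : ∀ d : ℤ, d ∈ Bx ↔ |(d : ℝ)| ≤ (N : ℝ) ^ c := fun d => by
    rw [hBx, Set.Finite.mem_toFinset, Set.mem_setOf_eq]
  refine ⟨Finset.univ.biUnion fun a : ι => Bx.filter fun d : ℤ => Squarefree d ∧
    δ ≤ |mean K (fun v => h a v * ch (d : 𝓞 K) v) N|, ?_, ?_⟩
  · have h3 : ((Finset.univ.biUnion fun a : ι => Bx.filter fun d : ℤ => Squarefree d ∧
        δ ≤ |mean K (fun v => h a v * ch (d : 𝓞 K) v) N|).card : ℝ) ≤
        ∑ a : ι, ((Bx.filter fun d : ℤ => Squarefree d ∧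
        δ ≤ |mean K (fun v => h a v * ch (d : 𝓞 K) v) N|).card : ℝ) := by
      exact_mod_cast Finset.card_biUnion_le
    refine h3.trans ?_
    calc ∑ a : ι, ((Bx.filter fun d : ℤ => Squarefree d ∧
          δ ≤ |mean K (fun v => h a v * ch (d : 𝓞 K) v) N|).card : ℝ) ≤
          ∑ _a : ι, (B0 (Module.finrank ℚ K) ⌊c⌋₊ c δ * Real.log N ^ ⌊c⌋₊) := by
          refine Finset.sum_le_sum fun a _ => hN (h a) (hh a) _ fun d hd => ?_
          rw [Finset.mem_filter, hmem] at hd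
          exact ⟨hd.2.1, hd.1, hd.2.2⟩
      _ = _ := by rw [Finset.sum_const, Finset.card_univ, nsmul_eq_mul]
  · intro d hsf hdN hdT a
    by_contra hcon
    push Not at hcon
    exact hdT (Finset.mem_biUnion.2 ⟨a, Finset.mem_univ _, Finset.mem_filter.2
      ⟨(hmem d).2 hdN, hsf, hcon⟩⟩)

open Classical in
/-- **One exceptional set for all scales.** -/
theorem exc {c : ℝ} (hc0 : 0 < c) (ι : Type) [Fintype ι] {δ : ℝ} (hδ : 0 < δ) (hδ1 : δ ≤ 1)
    {η : ℝ} (hη : 0 < η) (hη1 : η ≤ 1) :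
    ∀ᶠ N : ℕ in atTop, ∀ N' : ℕ, N ≤ N' → ∀ h : ι → HeightOneSpectrum (𝓞 K) → ℝ,
      (∀ a v, |h a v| ≤ 1) →
      ∃ T : Finset ℤ, (T.card : ℝ) ≤
        (Fintype.card ι * B0 (Module.finrank ℚ K) ⌊c⌋₊ c δ * (1 + 1 / Real.log (1 + η))) *
          (1 + Real.log (N' / N)) * Real.log N' ^ ⌊c⌋₊ ∧
        ∀ M : ℕ, N ≤ M → M ≤ N' → ∃ M₀ : ℕ, N ≤ M₀ ∧ M₀ ≤ M ∧ (M : ℝ) ≤ (1 + 3 * η) * M₀ ∧
          ∀ d : ℤ, Squarefree d → |(d : ℝ)| ≤ (N : ℝ) ^ c → d ∉ T →
            ∀ a, |mean K (fun v => h a v * ch (d : 𝓞 K) v) M₀| < δ := by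
  obtain ⟨M₁, hM₁⟩ := eventually_atTop.1 (exc_scale K hc0 ι hδ hδ1)
  have hl : 0 < Real.log (1 + η) := Real.log_pos (by linarith)
  filter_upwards [eventually_ge_atTop M₁, eventually_ge_atTop 1,
    (tendsto_natCast_atTop_atTop (R := ℝ)).eventually_ge_atTop (1 / η)]
    with N hN1 hN3 hN4 N' hNN' h hh
  have hN0 : (1 : ℝ) ≤ N := by exact_mod_cast hN3
  have hNN'R : (N : ℝ) ≤ N' := by exact_mod_cast hNN'
  have hlN' : 0 ≤ Real.log (N' / N) := Real.log_nonneg (by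
    rw [le_div_iff₀ (by linarith)]
    linarith)
  set J : ℕ := ⌊Real.log (N' / N) / Real.log (1 + η)⌋₊ with hJ
  set g : ℕ → ℕ := fun j => ⌊(N : ℝ) * (1 + η) ^ j⌋₊ with hg
  have hgN : ∀ j, N ≤ g j := by
    intro j
    refine Nat.le_floor ?_
    have h1 : (1 : ℝ) ≤ (1 + η) ^ j := one_le_pow₀ (by linarith)
    nlinarith
  have hgN' : ∀ j ∈ Finset.range (J + 1), g j ≤ N' := by
    intro j hj
    have hj' : j ≤ J := Nat.lt_succ_iff.1 (Finset.mem_range.1 hj)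
    have h1 := (scales hη hη1 hN4 hNN').2.1
    rw [← hJ] at h1
    refine le_trans (Nat.floor_le_floor ?_) h1
    refine mul_le_mul_of_nonneg_left ?_ (by linarith)
    exact pow_le_pow_right₀ (by linarith) hj'
  choose T hT1 hT2 using fun j => hM₁ (g j) (hN1.trans (hgN j)) h hh
  refine ⟨(Finset.range (J + 1)).biUnion T, ?_, ?_⟩
  · have h3 : (((Finset.range (J + 1)).biUnion T).card : ℝ) ≤
        ∑ j ∈ Finset.range (J + 1), ((T j).card : ℝ) := by
      exact_mod_cast Finset.card_biUnion_le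
    have hB0 : 0 ≤ (Fintype.card ι : ℝ) * B0 (Module.finrank ℚ K) ⌊c⌋₊ c δ := by
      unfold B0
      have : 0 < (⌊c⌋₊ : ℝ) + 1 - c := by
        have := Nat.lt_floor_add_one c
        linarith
      positivity
    have h4 : ∀ j ∈ Finset.range (J + 1), ((T j).card : ℝ) ≤
        Fintype.card ι * B0 (Module.finrank ℚ K) ⌊c⌋₊ c δ * Real.log N' ^ ⌊c⌋₊ := by
      intro j hj
      refine (hT1 j).trans ?_
      rw [← mul_assoc]
      refine mul_le_mul_of_nonneg_left ?_ hB0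
      refine pow_le_pow_left₀ (Real.log_natCast_nonneg _) ?_ _
      have h6 : (1 : ℝ) ≤ g j := by exact_mod_cast hN3.trans (hgN j)
      exact Real.log_le_log (by linarith) (by exact_mod_cast hgN' j hj)
    refine (h3.trans (Finset.sum_le_sum h4)).trans ?_
    rw [Finset.sum_const, Finset.card_range, nsmul_eq_mul]
    have hJ1 : (J : ℝ) ≤ Real.log (N' / N) / Real.log (1 + η) :=
      Nat.floor_le (div_nonneg hlN' hl.le)
    have hJ2 : ((J + 1 : ℕ) : ℝ) ≤ (1 + 1 / Real.log (1 + η)) * (1 + Real.log (N' / N)) := by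
      push_cast
      have h7 : (1 + 1 / Real.log (1 + η)) * (1 + Real.log (N' / N)) =
          1 + Real.log (N' / N) / Real.log (1 + η) +
            (1 / Real.log (1 + η) + Real.log (N' / N)) := by
        field_simp
        ring
      rw [h7]
      have : 0 ≤ 1 / Real.log (1 + η) + Real.log (N' / N) := by positivity
      linarith
    have hlp : 0 ≤ Real.log (N' : ℝ) ^ ⌊c⌋₊ := pow_nonneg (Real.log_natCast_nonneg N') _
    calc ((J + 1 : ℕ) : ℝ) * (Fintype.card ι * B0 (Module.finrank ℚ K) ⌊c⌋₊ c δ *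
          Real.log N' ^ ⌊c⌋₊) ≤
          ((1 + 1 / Real.log (1 + η)) * (1 + Real.log (N' / N))) *
            (Fintype.card ι * B0 (Module.finrank ℚ K) ⌊c⌋₊ c δ * Real.log N' ^ ⌊c⌋₊) :=
          mul_le_mul_of_nonneg_right hJ2 (mul_nonneg hB0 hlp)
      _ = _ := by ring
  · intro M hM1 hM2
    have hs := scales hη hη1 hN4 hM1
    set j : ℕ := ⌊Real.log (M / N) / Real.log (1 + η)⌋₊ with hj
    have hMR : (N : ℝ) ≤ M := by exact_mod_cast hM1
    have hMR' : (M : ℝ) ≤ N' := by exact_mod_cast hM2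
    have hjJ : j ∈ Finset.range (J + 1) := by
      rw [Finset.mem_range]
      refine Nat.lt_succ_of_le (Nat.floor_le_floor ?_)
      refine div_le_div_of_nonneg_right ?_ hl.le
      exact Real.log_le_log (div_pos (by linarith) (by linarith))
        (div_le_div_of_nonneg_right hMR' (by linarith))
    refine ⟨g j, hs.1, hs.2.1, hs.2.2, fun d hsf hdN hdT a => ?_⟩
    refine hT2 j d hsf (hdN.trans (Real.rpow_le_rpow (by linarith) (by exact_mod_cast hgN j)
      hc0.le)) (fun h' => hdT (Finset.mem_biUnion.2 ⟨j, hjJ, h'⟩)) a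

end Pool.Agent.U681.MB
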