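import Pool.Agent.U681.MB.Co

/-! The laws of the `L`-polynomials at the primes with prescribed quadratic symbols. -/

set_option autoImplicit false

namespace Pool.Agent.U681.MB

open NumberField IsDedekindDomain Filter Topology
open Pool.Agent.W529.ST (ch mean mean_sum mean_const_mul mean_close)
open Pool.Agent.U681.UT (lp IsTest cell rep mc rep_abs rep_close lp_mem mean_bad mean_stable B0)

/-- the number of cells -/
def nc (g k : ℕ) : ℕ := (8 * k * (2 * g).choose g + 1) ^ g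

/-- the step of the scales -/
noncomputable def st (n k : ℕ) : ℝ := 1 / (16 * k) / (256 * n) / 3

/-- the constant -/
noncomputable def bn (g n k : ℕ) (c : ℝ) : ℝ :=
  nc g k * B0 n ⌊c⌋₊ c (1 / (8 * nc g k * k)) * (1 + 1 / Real.log (1 + st n k))

theorem law (K : Type) [Field K] [NumberField K] (g : ℕ) {c : ℝ} (hc : 0 < c) {k : ℕ} (hk : 1 ≤ k) :
    ∀ᶠ N : ℕ in atTop, ∀ (C : Subgroup (GL (Fin g ⊕ Fin g) ℂ))
      (_ : IsCompact (C : Set (GL (Fin g ⊕ Fin g) ℂ))) (x : HeightOneSpectrum (𝓞 K) → C) (N' : ℕ),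
      N ≤ N' → ∃ T : Finset ℤ,
      (T.card : ℝ) ≤ bn g (Module.finrank ℚ K) k c * (1 + Real.log (N' / N)) *
        Real.log N' ^ ⌊c⌋₊ ∧
      ∀ (r : ℕ) (d : Fin r → ℤ), ∏ i, d i ≠ 0 → |((∏ i, d i : ℤ) : ℝ)| ≤ (N : ℝ) ^ c → IsFree T d →
      ∀ M : ℕ, N ≤ M → M ≤ N' → ∀ s : Set (Fin r), ∀ f : (Fin g → ℝ) → ℝ, IsTest f →
        |mean K (fun v => ind d s v * f (lp (x v : GL (Fin g ⊕ Fin g) ℂ))) M -
          mean K (fun v => f (lp (x v : GL (Fin g ⊕ Fin g) ℂ))) M / 2 ^ r| ≤ 1 / k := by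
  classical
  have hkR : (0 : ℝ) < k := by exact_mod_cast hk
  have hk1 : (1 : ℝ) ≤ k := by exact_mod_cast hk
  set n : ℝ := (Module.finrank ℚ K : ℝ) with hn
  have hn0 : 0 < n := Pool.Agent.U681.UT.fr_pos (K := K)
  have hn1 : 1 ≤ n := by
    have h0 : 1 ≤ Module.finrank ℚ K := Module.finrank_pos
    rw [hn]
    exact_mod_cast h0
  have hε0 : (0 : ℝ) < 1 / (16 * k) := by positivity
  have hε1 : (1 : ℝ) / (16 * k) ≤ 1 := by
    rw [div_le_one (by positivity)]
    linarith
  set η : ℝ := st (Module.finrank ℚ K) k with hη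
  have hη' : 3 * η = 1 / (16 * k) / (256 * n) := by
    rw [hη]
    unfold st
    ring
  have hη0 : 0 < η := by
    have : 0 < 3 * η := by rw [hη']; positivity
    linarith
  have hη1 : η ≤ 1 := by
    have : 3 * η ≤ 1 := by
      rw [hη', div_le_one (by positivity)]
      linarith
    linarith
  set ν : ℝ := (nc g k : ℝ) with hν
  have hν1 : 1 ≤ ν := by
    rw [hν]
    unfold nc
    exact_mod_cast Nat.one_le_pow _ _ (Nat.succ_pos _)
  have hνc : (Fintype.card (Fin g → Fin (mc g k)) : ℝ) = ν := by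
    rw [hν, Fintype.card_fun, Fintype.card_fin, Fintype.card_fin]
    rfl
  set δ : ℝ := 1 / (8 * ν * k) with hδ
  have hδ0 : 0 < δ := by positivity
  have hδ1 : δ ≤ 1 := by
    rw [hδ, div_le_one (by positivity)]
    nlinarith
  obtain ⟨M₁, hM₁⟩ := eventually_atTop.1 (mean_stable K hε0 hε1)
  obtain ⟨M₂, hM₂⟩ := eventually_atTop.1
    (mean_bad (K := K) (Z := ∅) Set.finite_empty hc (ε := δ) hδ0)
  filter_upwards [exc K hc (Fin g → Fin (mc g k)) hδ0 hδ1 hη0 hη1, eventually_ge_atTop M₁,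
    eventually_ge_atTop M₂, eventually_ge_atTop 1] with N hN hN1 hN2 hN3 C hC x N' hNN'
  set cl : HeightOneSpectrum (𝓞 K) → Fin g → Fin (mc g k) :=
    fun v => cell k (lp (x v : GL (Fin g ⊕ Fin g) ℂ)) with hcl
  set h : (Fin g → Fin (mc g k)) → HeightOneSpectrum (𝓞 K) → ℝ :=
    fun a v => if cl v = a then 1 else 0 with hh
  have hh1 : ∀ a v, |h a v| ≤ 1 := by
    intro a v
    simp only [hh]
    split_ifs <;> simp
  obtain ⟨T, hTc, hT⟩ := hN N' hNN' h hh1
  refine ⟨T, ?_, ?_⟩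
  · refine hTc.trans (le_of_eq ?_)
    unfold bn
    rw [hνc]
  intro r d h0 hdN hfree M hM1 hM2 s f hf
  obtain ⟨M₀, hNM₀, hM₀M, hMM₀, hgood⟩ := hT M hM1 hM2
  rw [hη'] at hMM₀
  have hr1 : (1 : ℝ) ≤ 2 ^ r := one_le_pow₀ (by norm_num)
  have hN0 : (1 : ℝ) ≤ N := by exact_mod_cast hN3
  have hNM₀R : (N : ℝ) ≤ M₀ := by exact_mod_cast hNM₀
  -- the cells
  have hcell : ∀ a, |mean K (fun v => h a v * ind d s v) M₀ - mean K (h a) M₀ / 2 ^ r| ≤
      δ + δ := by
    intro a
    refine core_one h0 hfree hdN (hh1 a) hδ0.le (fun e he1 he2 he3 => hgood e he1 he2 he3 a) ?_ s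
    intro φ ψ h1 h2
    exact hM₂ M₀ (hN2.trans hNM₀) (∏ i, d i) h0
      (hdN.trans (Real.rpow_le_rpow (by linarith) hNM₀R hc.le)) φ ψ h1 fun v _ hv => h2 v hv
  -- the function
  set F : HeightOneSpectrum (𝓞 K) → ℝ := fun v => f (lp (x v : GL (Fin g ⊕ Fin g) ℂ)) with hF
  have hF1 : ∀ v, |F v| ≤ 1 := fun v => hf.2 _
  set G : HeightOneSpectrum (𝓞 K) → ℝ := fun v => ∑ a, rep k f a * h a v with hG
  have hGe : ∀ v, G v = rep k f (cl v) := by
    intro v
    simp only [hG, hh, mul_ite, mul_one, mul_zero]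
    rw [Finset.sum_ite_eq, if_pos (Finset.mem_univ _)]
  have hFG : ∀ v, |F v - G v| ≤ 1 / (4 * k) := by
    intro v
    rw [hGe]
    refine (rep_close hk hf (lp_mem hC (x v))).trans (le_of_eq ?_)
    ring
  have e1 : |mean K (fun v => ind d s v * F v) M₀ - mean K (fun v => ind d s v * G v) M₀| ≤
      1 / (4 * k) := by
    refine mean_close (fun v => ?_) M₀
    rw [← mul_sub, abs_mul, abs_of_nonneg (ind_nonneg d s v)]
    calc ind d s v * |F v - G v| ≤ 1 * (1 / (4 * k)) :=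
          mul_le_mul (ind_le d s v) (hFG v) (abs_nonneg _) zero_le_one
      _ = _ := one_mul _
  have e2 : |mean K F M₀ - mean K G M₀| ≤ 1 / (4 * k) := mean_close hFG M₀
  have e3 : mean K (fun v => ind d s v * G v) M₀ =
      ∑ a, rep k f a * mean K (fun v => h a v * ind d s v) M₀ := by
    have : (fun v => ind d s v * G v) = fun v => ∑ a, rep k f a * (h a v * ind d s v) := by
      funext v
      simp only [hG]
      rw [Finset.mul_sum]
      exact Finset.sum_congr rfl fun a _ => by ring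
    rw [this, mean_sum]
    exact Finset.sum_congr rfl fun a _ => mean_const_mul _ _ _
  have e4 : mean K G M₀ = ∑ a, rep k f a * mean K (h a) M₀ := by
    rw [hG, mean_sum]
    exact Finset.sum_congr rfl fun a _ => mean_const_mul _ _ _
  have e5 : |mean K (fun v => ind d s v * G v) M₀ - mean K G M₀ / 2 ^ r| ≤ 1 / (4 * k) := by
    rw [e3, e4, Finset.sum_div, ← Finset.sum_sub_distrib]
    refine (Finset.abs_sum_le_sum_abs _ _).trans ?_
    calc ∑ a, |rep k f a * mean K (fun v => h a v * ind d s v) M₀ -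
          rep k f a * mean K (h a) M₀ / 2 ^ r| ≤ ∑ _a : Fin g → Fin (mc g k), (δ + δ) := by
          refine Finset.sum_le_sum fun a _ => ?_
          have : rep k f a * mean K (fun v => h a v * ind d s v) M₀ -
              rep k f a * mean K (h a) M₀ / 2 ^ r = rep k f a *
              (mean K (fun v => h a v * ind d s v) M₀ - mean K (h a) M₀ / 2 ^ r) := by ring
          rw [this, abs_mul]
          calc |rep k f a| * |mean K (fun v => h a v * ind d s v) M₀ - mean K (h a) M₀ / 2 ^ r| ≤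
                1 * (δ + δ) := mul_le_mul (rep_abs k hf a) (hcell a) (abs_nonneg _) zero_le_one
            _ = _ := one_mul _
      _ = ν * (δ + δ) := by rw [Finset.sum_const, Finset.card_univ, nsmul_eq_mul, hνc]
      _ = 1 / (4 * k) := by
          rw [hδ]
          field_simp
          norm_num
      _ ≤ _ := le_rfl
  -- the scale
  have s1 := hM₁ M₀ (hN1.trans hNM₀) M hM₀M hMM₀ (fun v => ind d s v * F v) (fun v => by
    rw [abs_mul, abs_of_nonneg (ind_nonneg d s v)]
    exact mul_le_one₀ (ind_le d s v) (abs_nonneg _) (hF1 v))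
  have s2 := hM₁ M₀ (hN1.trans hNM₀) M hM₀M hMM₀ F hF1
  have hdiv : ∀ t u : ℝ, 0 ≤ u → |t| ≤ u → |t / 2 ^ r| ≤ u := by
    intro t u hu ht
    rw [abs_div, abs_of_pos (by linarith : (0 : ℝ) < 2 ^ r), div_le_iff₀ (by linarith)]
    nlinarith
  have s3 := hdiv _ _ hε0.le s2
  have e6 := hdiv _ _ (by positivity) e2
  have key : mean K (fun v => ind d s v * F v) M - mean K F M / 2 ^ r =
      (mean K (fun v => ind d s v * F v) M - mean K (fun v => ind d s v * F v) M₀) -
      ((mean K F M - mean K F M₀) / 2 ^ r) +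
      (mean K (fun v => ind d s v * F v) M₀ - mean K (fun v => ind d s v * G v) M₀) -
      ((mean K F M₀ - mean K G M₀) / 2 ^ r) +
      (mean K (fun v => ind d s v * G v) M₀ - mean K G M₀ / 2 ^ r) := by ring
  have hfin : (1 : ℝ) / (16 * k) + 1 / (16 * k) + 1 / (4 * k) + 1 / (4 * k) + 1 / (4 * k) ≤
      1 / k := by
    have : (1 : ℝ) / (16 * k) + 1 / (16 * k) + 1 / (4 * k) + 1 / (4 * k) + 1 / (4 * k) =
        7 / 8 * (1 / k) := by
      field_simp
      norm_num
    rw [this]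
    have : 0 < 1 / (k : ℝ) := by positivity
    linarith
  rw [key]
  rw [abs_le] at s1 s3 e1 e5 e6 ⊢
  constructor <;> linarith [s1.1, s1.2, s3.1, s3.2, e1.1, e1.2, e5.1, e5.2, e6.1, e6.2]

end Pool.Agent.U681.MB
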