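import Pool.Agent.U681.MB.Ex
import Pool.Agent.U681.MB.Defs

/-! The primes with prescribed quadratic symbols. -/

set_option autoImplicit false

namespace Pool.Agent.U681.MB

open NumberField IsDedekindDomain Filter Topology
open Pool.Agent.W529.ST (ch ch_abs ch_dichotomy ch_mul mean mean_sum mean_const_mul)

/-- the squarefree kernel, with sign -/
theorem exists_kernel {q : ℤ} (hq : q ≠ 0) : ∃ e m : ℤ, Squarefree e ∧ q = m ^ 2 * e ∧ |e| ≤ |q| := by
  obtain ⟨a, b, hab, ha⟩ := Nat.sq_mul_squarefree q.natAbs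
  have hb : b ≠ 0 := by
    rintro rfl
    rw [zero_pow two_ne_zero, zero_mul] at hab
    exact hq (Int.natAbs_eq_zero.1 hab.symm)
  refine ⟨q.sign * a, b, ?_, ?_, ?_⟩
  · rw [← Int.squarefree_natAbs, Int.natAbs_mul, Int.natAbs_sign_of_ne_zero hq, one_mul,
      Int.natAbs_natCast]
    exact ha
  · have h1 : (q.natAbs : ℤ) = (b : ℤ) ^ 2 * a := by rw [← hab]; push_cast; ring
    calc q = q.sign * q.natAbs := (Int.sign_mul_natAbs q).symm
      _ = _ := by rw [h1]; ring
  · rw [abs_mul, Int.abs_sign_of_ne_zero hq, one_mul, Int.abs_eq_natAbs q, ← hab, Nat.abs_cast]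
    have : 1 ≤ b ^ 2 := Nat.one_le_iff_ne_zero.2 (pow_ne_zero 2 hb)
    push_cast
    have h2 : (1 : ℤ) ≤ (b : ℤ) ^ 2 := by exact_mod_cast this
    nlinarith [Nat.cast_nonneg (α := ℤ) a]

variable {K : Type} [Field K] [NumberField K]

/-- `ch` of a product -/
theorem ch_prod {r : ℕ} (d : Fin r → ℤ) (S : Finset (Fin r)) (v : HeightOneSpectrum (𝓞 K))
    (h2 : (2 : 𝓞 K) ∉ v.asIdeal) :
    ch ((∏ i ∈ S, d i : ℤ) : 𝓞 K) v = ∏ i ∈ S, ch (d i : 𝓞 K) v := by
  classical
  induction S using Finset.induction_on with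
  | empty =>
    rw [Finset.prod_empty, Finset.prod_empty]
    rcases ch_dichotomy ((1 : ℤ) : 𝓞 K) (v := v) (by simpa using h2) with h | h
    · exact h.2
    · exfalso
      apply h.1
      rw [Int.cast_one, map_one]
      exact IsSquare.one
  | insert i S hi ih =>
    rw [Finset.prod_insert hi, Finset.prod_insert hi, ← ih, ← ch_mul]
    push_cast
    rfl

/-- `ch` does not see squares -/
theorem ch_sq_mul {q e m : ℤ} (h : q = m ^ 2 * e) {v : HeightOneSpectrum (𝓞 K)}
    (hv : 2 * (q : 𝓞 K) ∉ v.asIdeal) : ch (q : 𝓞 K) v = ch (e : 𝓞 K) v := by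
  have hm : 2 * (m : 𝓞 K) ∉ v.asIdeal := by
    intro hm
    apply hv
    have : 2 * (q : 𝓞 K) = (2 * (m : 𝓞 K)) * (m * e) := by
      rw [h]
      push_cast
      ring
    rw [this]
    exact Ideal.mul_mem_right _ _ hm
  have h1 : (q : 𝓞 K) = (m * m) * e := by rw [h]; push_cast; ring
  rw [h1, ch_mul, ch_mul]
  rcases ch_dichotomy (m : 𝓞 K) hm with h2 | h2 <;> rw [h2.2] <;> ring

open Classical in
/-- signs -/
noncomputable def sg {r : ℕ} (s : Set (Fin r)) (i : Fin r) : ℝ := if i ∈ s then 1 else -1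

theorem sg_abs {r : ℕ} (s : Set (Fin r)) (i : Fin r) : |sg s i| = 1 := by
  unfold sg
  split_ifs <;> simp

open Classical in
/-- the indicator function of the pattern -/
noncomputable def ind {r : ℕ} (d : Fin r → ℤ) (s : Set (Fin r)) (v : HeightOneSpectrum (𝓞 K)) : ℝ :=
  if v ∈ pattern K d s then 1 else 0

theorem ind_nonneg {r : ℕ} (d : Fin r → ℤ) (s : Set (Fin r)) (v : HeightOneSpectrum (𝓞 K)) :
    0 ≤ ind d s v := by
  unfold ind
  split_ifs <;> norm_num

theorem ind_le {r : ℕ} (d : Fin r → ℤ) (s : Set (Fin r)) (v : HeightOneSpectrum (𝓞 K)) :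
    ind d s v ≤ 1 := by
  unfold ind
  split_ifs <;> norm_num

/-- the expansion of the indicator function -/
theorem ind_eq {r : ℕ} (d : Fin r → ℤ) (s : Set (Fin r)) {v : HeightOneSpectrum (𝓞 K)}
    (hv : 2 * ((∏ i, d i : ℤ) : 𝓞 K) ∉ v.asIdeal) :
    ind d s v = (∑ S : Finset (Fin r), (∏ i ∈ S, sg s i) * ch ((∏ i ∈ S, d i : ℤ) : 𝓞 K) v) /
      2 ^ r := by
  classical
  have h2 : (2 : 𝓞 K) ∉ v.asIdeal := fun h => hv (Ideal.mul_mem_right _ _ h)
  have hd : ∀ i, 2 * (d i : 𝓞 K) ∉ v.asIdeal := by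
    intro i h
    apply hv
    rw [← Finset.mul_prod_erase Finset.univ d (Finset.mem_univ i)]
    push_cast
    rw [← mul_assoc]
    exact Ideal.mul_mem_right _ _ h
  have e1 : ∑ S : Finset (Fin r), (∏ i ∈ S, sg s i) * ch ((∏ i ∈ S, d i : ℤ) : 𝓞 K) v =
      ∏ i, (1 + sg s i * ch (d i : 𝓞 K) v) := by
    rw [Finset.prod_one_add, Finset.powerset_univ]
    refine Finset.sum_congr rfl fun S _ => ?_
    rw [ch_prod d S v h2, Finset.prod_mul_distrib]
  rw [e1, eq_div_iff (by positivity)]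
  unfold ind
  by_cases h : v ∈ pattern K d s
  · rw [if_pos h, one_mul]
    have e2 : ∀ i ∈ (Finset.univ : Finset (Fin r)), 1 + sg s i * ch (d i : 𝓞 K) v = 2 := by
      intro i _
      unfold sg
      rcases ch_dichotomy (d i : 𝓞 K) (hd i) with h3 | h3
      · rw [if_pos ((h i).1 h3.1), h3.2]
        norm_num
      · rw [if_neg fun h4 => h3.1 ((h i).2 h4), h3.2]
        norm_num
    rw [Finset.prod_congr rfl e2, Finset.prod_const, Finset.card_univ, Fintype.card_fin]
  · rw [if_neg h, zero_mul]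
    have h3 : ∃ i, ¬ (IsSquare (Ideal.Quotient.mk v.asIdeal (d i : 𝓞 K)) ↔ i ∈ s) := by
      by_contra hcon
      push Not at hcon
      exact h hcon
    obtain ⟨i, hi⟩ := h3
    refine (Finset.prod_eq_zero (Finset.mem_univ i) ?_).symm
    unfold sg
    rcases ch_dichotomy (d i : 𝓞 K) (hd i) with h4 | h4
    · rw [if_neg fun h5 => hi ⟨fun _ => h5, fun _ => h4.1⟩, h4.2]
      norm_num
    · rw [if_pos, h4.2]
      · norm_num
      · by_contra h5
        exact hi ⟨fun h6 => absurd h6 h4.1, fun h6 => absurd h6 h5⟩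

end Pool.Agent.U681.MB
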